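import Pool.Agent.P.MP_613544_nt.Conv

/-!
Dirichlet improvable numbers that are not badly approximable, for every norm on the plane.
-/

set_option autoImplicit false

namespace Pool.Agent.Results.MP_613544_nt.AllNorms

open Pool.Agent.P.MP_613544_nt Filter Topology

theorem euclid {a b c : ℝ} (h : ∀ x y : ℝ, √(x ^ 2 + y ^ 2) = max |a * y| |b * x + c * y|) :
    False := by
  have h1 : |b| = 1 := by simpa using (h 1 0).symm
  have h2 : b * b = 1 := by rw [← abs_mul_abs_self, h1, one_mul]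
  have k : ∀ t : ℝ, |t| ≤ |a| → (t - c * b) ^ 2 + 1 = a ^ 2 := fun t ht => by
    have := h (t - c * b) 1
    rw [show b * (t - c * b) + c * 1 = b * t by linear_combination -c * h2, abs_mul b, h1, one_mul,
      mul_one, max_eq_left ht, Real.sqrt_eq_iff_mul_self_eq (by positivity) (abs_nonneg _),
      abs_mul_abs_self] at this
    linarith
  nlinarith [k a le_rfl, k (-a) (abs_neg a).le, k 0 (by simp)]

theorem result (ν : Seminorm ℝ (ℝ × ℝ)) (hν : ∀ v, ν v = 0 → v = 0) :
    (AxisPar ν → ∀ x ∈ DI ν, x ∈ BA ∨ ¬ Irrational x) ∧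
    (¬ AxisPar ν → dimH (DI ν \ BA) = 1 ∧
      ∀ τ : ℝ, 2 < τ → dimH (DI ν ∩ WA τ) = ENNReal.ofReal (2 / τ)) ∧
    ((∀ v : ℝ × ℝ, ν v = √(v.1 ^ 2 + v.2 ^ 2)) → ¬ AxisPar ν) := by
  obtain ⟨c, C, h⟩ := exists_crit hν
  refine ⟨fun hA x hx => conv h hA hx, fun hA => ?_, ?_⟩
  · have key : ∀ τ : ℝ, 2 < τ → dimH (DI ν ∩ WA τ) = ENNReal.ofReal (2 / τ) := fun τ =>
      dim_eq h (fun ⟨a, b, d, e⟩ => hA ⟨a, b, d, Or.inl e⟩) fun ⟨a, b, d, e⟩ =>
        hA ⟨a, b, -d, Or.inr fun v => by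
          have := e (v.2, -v.1)
          rw [turn_apply] at this
          simpa using this⟩
    refine ⟨le_antisymm ((dimH_mono (Set.subset_univ _)).trans_eq Real.dimH_univ) ?_, key⟩
    have := ENNReal.tendsto_ofReal (((continuousAt_const (y := (2 : ℝ))).div continuousAt_id
      two_ne_zero).tendsto.mono_left (nhdsWithin_le_nhds (s := Set.Ioi 2)))
    simp only [Pi.div_apply, id, div_self (two_ne_zero (α := ℝ)), ENNReal.ofReal_one] at this
    refine le_of_tendsto this (eventually_mem_nhdsWithin.mono fun τ hτ => ?_)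
    exact (key τ hτ).symm.trans_le (dimH_mono fun x hx => ⟨hx.1, wa_disjoint hτ hx.2⟩)
  · rintro e ⟨a, b, d, g | g⟩
    · exact euclid fun x y => (e (x, y)).symm.trans (g _)
    · exact euclid fun x y => by rw [add_comm]; exact (e (y, x)).symm.trans (g _)

end Pool.Agent.Results.MP_613544_nt.AllNorms
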